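import Pool.Agent.H336R3.Main

set_option autoImplicit false

/-! Random regular graphs share their neighbourhoods with almost all of the entropy of regular
graphs. -/

namespace Pool.Agent.Y850.SH

open Finset Filter Topology
open Pool.Agent.H336R3.Shot

variable {n : ℕ}

/-- There are at least `M` pairwise non-isomorphic `d`-regular graphs `H` on the vertex set of `G`
such that, for every vertex `v`, the rooted `r`-neighbourhoods of `v` in `G` and in `H` are
isomorphic. -/
def ManyTwins (r d : ℕ) (G : SimpleGraph (Fin n)) (M : ℝ) : Prop :=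
  ∃ F : Finset (SimpleGraph (Fin n)), M ≤ F.card ∧
    (∀ H ∈ F, Reg H d ∧ ∀ v, NbhdIso r G v H v) ∧
    (∀ H ∈ F, ∀ K ∈ F, Nonempty (H ≃g K) → H = K)

/-- two non-isomorphic twins: not reconstructable -/
theorem not_rec_of_many {r d : ℕ} {G : SimpleGraph (Fin n)} {M : ℝ} (hM : 1 < M)
    (h : ManyTwins r d G M) : ¬ Reconstructable r G := by
  intro hrec
  obtain ⟨F, hF, h1, h2⟩ := h
  have h3 : 1 < F.card := by exact_mod_cast hM.trans_le hF
  obtain ⟨H, hH, K, hK, hne⟩ := one_lt_card.1 h3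
  obtain ⟨φ⟩ := hrec (Fin n) H ⟨Equiv.refl _, fun v => (h1 H hH).2 v⟩
  obtain ⟨ψ⟩ := hrec (Fin n) K ⟨Equiv.refl _, fun v => (h1 K hK).2 v⟩
  exact hne (h2 H hH K hK ⟨φ.symm.trans ψ⟩)

/-- the isomorphism setoid -/
def isoSetoid (n : ℕ) : Setoid (SimpleGraph (Fin n)) where
  r G H := Nonempty (G ≃g H)
  iseqv := ⟨fun _ => ⟨SimpleGraph.Iso.refl⟩, fun ⟨φ⟩ => ⟨φ.symm⟩, fun ⟨φ⟩ ⟨ψ⟩ => ⟨φ.trans ψ⟩⟩

open scoped Classical in
/-- a family of labelled graphs has at least `card / n!` isomorphism types -/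
theorem card_le_types (P : Finset (SimpleGraph (Fin n))) :
    ∃ F ⊆ P, (∀ H ∈ F, ∀ K ∈ F, Nonempty (H ≃g K) → H = K) ∧ P.card ≤ n.factorial * F.card := by
  classical
  let q : SimpleGraph (Fin n) → Quotient (isoSetoid n) := fun G => Quotient.mk _ G
  have h1 : P.card ≤ n.factorial * (P.image q).card := by
    apply card_le_mul_card_image
    intro c hc
    rw [mem_image] at hc
    obtain ⟨G₀, hG₀, rfl⟩ := hc
    have hsub : (P.filter (fun G => q G = q G₀)) ⊆
        (univ : Finset (Equiv.Perm (Fin n))).image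
          (fun σ : Equiv.Perm (Fin n) => G₀.comap (fun x => σ x)) := by
      intro G hG
      rw [mem_filter] at hG
      obtain ⟨φ⟩ : Nonempty (G ≃g G₀) := Quotient.exact hG.2
      rw [mem_image]
      refine ⟨φ.toEquiv, mem_univ _, ?_⟩
      ext a b
      rw [SimpleGraph.comap_adj]
      exact φ.map_adj_iff
    refine (card_le_card hsub).trans (card_image_le.trans ?_)
    rw [card_univ, Fintype.card_perm, Fintype.card_fin]
  -- representatives
  have h2 : ∀ c ∈ P.image q, ∃ G ∈ P, q G = c := by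
    intro c hc
    rw [mem_image] at hc
    exact hc
  choose! f hf1 hf2 using h2
  refine ⟨(P.image q).image f, ?_, ?_, ?_⟩
  · intro H hH
    rw [mem_image] at hH
    obtain ⟨c, hc, rfl⟩ := hH
    exact hf1 c hc
  · intro H hH K hK hiso
    rw [mem_image] at hH hK
    obtain ⟨c, hc, rfl⟩ := hH
    obtain ⟨e, he, rfl⟩ := hK
    have h3 : q (f c) = q (f e) := Quotient.sound hiso
    rw [hf2 c hc, hf2 e he] at h3
    rw [h3]
  · rw [card_image_of_injOn]
    · exact h1
    · intro c hc e he hce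
      have h3 : q (f c) = q (f e) := by rw [hce]
      rwa [hf2 c hc, hf2 e he] at h3

open scoped Classical in
/-- the regular graphs with few bad tuples and few twins -/
noncomputable def Few (n d r s : ℕ) (M : ℝ) : Finset (SimpleGraph (Fin n)) :=
  (RG n d).filter (fun G => ¬ ManyTwins r d G M ∧ (Bad r G).card ≤ s)

theorem few_card_le (n d r s : ℕ) (M : ℝ) (hM : 0 ≤ M) :
    ((Few n d r s M).card : ℝ) ≤
      ((n * ((n + 1) ^ r * (n + 1) ^ r) + 1) ^ s : ℕ) * (n.factorial * M) := by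
  classical
  have h2 : ((Few n d r s M).image (code r)) ⊆
      (univ : Finset (Finset (CT n r))).filter (fun S => S.card ≤ s) := by
    intro c hc
    rw [mem_image] at hc
    obtain ⟨G, hG, rfl⟩ := hc
    unfold Few at hG
    rw [mem_filter] at hG ⊢
    exact ⟨mem_univ _, (code_card_le r G).trans hG.2.2⟩
  have h3 := card_small_subsets (CT n r) s
  rw [card_CT] at h3
  have h4 := (card_le_card h2).trans h3
  have h5 : ∀ c ∈ (Few n d r s M).image (code r),
      (((Few n d r s M).filter (fun G => code r G = c)).card : ℝ) ≤ n.factorial * M := by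
    intro c hc
    rw [mem_image] at hc
    obtain ⟨G₀, hG₀, rfl⟩ := hc
    obtain ⟨F, hFP, hF1, hF2⟩ :=
      card_le_types ((Few n d r s M).filter (fun G => code r G = code r G₀))
    have hlt : (F.card : ℝ) < M := by
      by_contra hcon
      push Not at hcon
      unfold Few RG at hG₀
      rw [mem_filter, mem_filter] at hG₀
      refine hG₀.2.1 ⟨F, hcon, ?_, hF1⟩
      intro H hH
      have hH' := hFP hH
      unfold Few RG at hH'
      rw [mem_filter, mem_filter, mem_filter] at hH'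
      refine ⟨hH'.1.1.2, fun v => ?_⟩
      exact (tr G₀ r v).iso_of_X hG₀.1.2 hH'.1.1.2 (tr H r v) (X_eq_of_code hH'.2.symm v)
    calc (((Few n d r s M).filter (fun G => code r G = code r G₀)).card : ℝ)
        ≤ ((n.factorial * F.card : ℕ) : ℝ) := by exact_mod_cast hF2
      _ = n.factorial * (F.card : ℝ) := by push_cast; ring
      _ ≤ n.factorial * M := by gcongr
  have h6 : ((Few n d r s M).card : ℝ) =
      ∑ c ∈ (Few n d r s M).image (code r),
        (((Few n d r s M).filter (fun G => code r G = c)).card : ℝ) := by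
    rw [← Nat.cast_sum]
    congr 1
    exact card_eq_sum_card_image (code r) (Few n d r s M)
  rw [h6]
  refine (sum_le_sum h5).trans ?_
  rw [sum_const, nsmul_eq_mul]
  refine mul_le_mul_of_nonneg_right ?_ (by positivity)
  exact_mod_cast h4

/-- the number of regular graphs -/
theorem RG_big {n d r : ℕ} (hr : 1 ≤ r) (hd : 256 ≤ d) (hdn : d ^ (2 * r) ≤ n)
    (he : Even (n * d)) : (n + 1) ^ (n * d / 8) ≤ (RG n d).card ^ 4 := by
  have hd2 : d ^ 2 ≤ n := le_trans (Nat.pow_le_pow_right (by omega) (by omega)) hdn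
  have h256 : 256 * d ≤ n := by
    calc 256 * d ≤ d * d := Nat.mul_le_mul_right _ hd
      _ = d ^ 2 := by ring
      _ ≤ n := hd2
  have hn : 65536 ≤ n := by omega
  have h2 : 8 * (d + 1) ≤ n := by omega
  set k := n * d / 8 with hk
  have hlow := RG_lower h2 he
  rw [← hk] at hlow
  have hA : (n + 1) * (2 * d) ^ 4 ≤ n ^ 4 := by
    have h4 : (2 * d) ^ 4 = 16 * (d ^ 2) ^ 2 := by ring
    rw [h4]
    calc (n + 1) * (16 * (d ^ 2) ^ 2) ≤ (n + 1) * (16 * n ^ 2) := by gcongr
      _ = (16 * (n + 1)) * n ^ 2 := by ring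
      _ ≤ (n * n) * n ^ 2 := by
          apply Nat.mul_le_mul_right
          calc 16 * (n + 1) ≤ 32 * n := by omega
            _ ≤ n * n := Nat.mul_le_mul_right _ (by omega)
      _ = n ^ 4 := by ring
  have hpos : 0 < (2 * d) ^ (4 * k) := by positivity
  have h5 : (n + 1) ^ k * (2 * d) ^ (4 * k) ≤ (RG n d).card ^ 4 * (2 * d) ^ (4 * k) := by
    calc (n + 1) ^ k * (2 * d) ^ (4 * k) = ((n + 1) * (2 * d) ^ 4) ^ k := by
          rw [mul_pow (n + 1), pow_mul (2 * d)]
      _ ≤ (n ^ 4) ^ k := Nat.pow_le_pow_left hA k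
      _ = (n ^ k) ^ 4 := by rw [← pow_mul, ← pow_mul, mul_comm]
      _ ≤ ((2 * d) ^ k * (RG n d).card) ^ 4 := Nat.pow_le_pow_left hlow 4
      _ = (RG n d).card ^ 4 * (2 * d) ^ (4 * k) := by
          rw [mul_pow, ← pow_mul, mul_comm k 4]; ring
  exact Nat.le_of_mul_le_mul_right h5 hpos

/-- few graphs with few bad tuples have few twins -/
theorem few_small {n d r s : ℕ} {ε : ℝ} (hε : 0 < ε) (hε1 : ε ≤ 1) (hr : 1 ≤ r)
    (hd : 256 ≤ ε * d) (hdn : d ^ (2 * r) ≤ n) (he : Even (n * d))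
    (hs : 64 * (2 * (r : ℝ) + 1) * s ≤ ε * (n * d)) :
    ((Few n d r s (((RG n d).card : ℝ) ^ (1 - ε))).card : ℝ) * (n + 1) ≤ (RG n d).card := by
  have hd0 : (0 : ℝ) ≤ (d : ℝ) := by positivity
  have hd256 : 256 ≤ d := by
    have h : (256 : ℝ) ≤ d := hd.trans (mul_le_of_le_one_left hd0 hε1)
    exact_mod_cast h
  have hd2 : d ^ 2 ≤ n := le_trans (Nat.pow_le_pow_right (by omega) (by omega)) hdn
  have h256 : 256 * d ≤ n := by
    calc 256 * d ≤ d * d := Nat.mul_le_mul_right _ hd256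
      _ = d ^ 2 := by ring
      _ ≤ n := hd2
  have hn1 : (1 : ℝ) ≤ n := by
    have : 1 ≤ n := by omega
    exact_mod_cast this
  have hNpos : 0 < (RG n d).card := RG_nonempty (by omega) he
  have hN : (0 : ℝ) < (RG n d).card := by exact_mod_cast hNpos
  have hbig := RG_big hr hd256 hdn he
  set k := n * d / 8 with hk
  set X : ℝ := ((RG n d).card : ℝ) with hX
  have hbig' : ((n : ℝ) + 1) ^ k ≤ X ^ 4 := by rw [hX]; exact_mod_cast hbig
  have hn0 : (0 : ℝ) < (n : ℝ) + 1 := by positivity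
  -- `(n+1)^(n + (2r+1)s + 1) ≤ X^ε`
  have hkey : ((n : ℝ) + 1) ^ (n + (2 * r + 1) * s + 1) ≤ X ^ ε := by
    have e1 : ((n : ℝ) + 1) ^ ((k : ℝ) * (ε / 4)) ≤ X ^ ε := by
      have h := Real.rpow_le_rpow (by positivity) hbig' (show 0 ≤ ε / 4 by positivity)
      rw [← Real.rpow_natCast, ← Real.rpow_natCast, ← Real.rpow_mul hn0.le,
        ← Real.rpow_mul hN.le] at h
      have e : ((4 : ℕ) : ℝ) * (ε / 4) = ε := by push_cast; ring
      rwa [e] at h
    refine le_trans ?_ e1
    rw [← Real.rpow_natCast]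
    refine Real.rpow_le_rpow_of_exponent_le (by linarith) ?_
    push_cast
    have hk' : (n : ℝ) * d < 8 * (k + 1) := by
      have : n * d < 8 * (k + 1) := by rw [hk]; omega
      exact_mod_cast this
    have hnd : 256 * (n : ℝ) ≤ ε * (n * d) := by
      calc 256 * (n : ℝ) ≤ (ε * d) * n := mul_le_mul_of_nonneg_right hd (by positivity)
        _ = ε * (n * d) := by ring
    have e2 : ε * (n * d) ≤ ε * (8 * (k + 1)) := mul_le_mul_of_nonneg_left hk'.le hε.le
    nlinarith
  have hcodes : ((((n * ((n + 1) ^ r * (n + 1) ^ r) + 1) ^ s : ℕ) : ℝ)) ≤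
      ((n : ℝ) + 1) ^ ((2 * r + 1) * s) := by
    have h : (n * ((n + 1) ^ r * (n + 1) ^ r) + 1) ^ s ≤ (n + 1) ^ ((2 * r + 1) * s) := by
      rw [pow_mul]
      apply Nat.pow_le_pow_left
      have h6 : 1 ≤ (n + 1) ^ r * (n + 1) ^ r := Nat.one_le_iff_ne_zero.2 (by positivity)
      calc n * ((n + 1) ^ r * (n + 1) ^ r) + 1 ≤
            n * ((n + 1) ^ r * (n + 1) ^ r) + ((n + 1) ^ r * (n + 1) ^ r) := by omega
        _ = (n + 1) ^ (2 * r + 1) := by
            rw [show 2 * r + 1 = r + r + 1 by ring, pow_succ, pow_add]; ring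
    exact_mod_cast h
  have hfac : ((n.factorial : ℕ) : ℝ) ≤ ((n : ℝ) + 1) ^ n := by
    have h : n.factorial ≤ (n + 1) ^ n :=
      (Nat.factorial_le_pow n).trans (Nat.pow_le_pow_left (by omega) n)
    exact_mod_cast h
  have hM0 : 0 ≤ X ^ (1 - ε) := by positivity
  calc ((Few n d r s (X ^ (1 - ε))).card : ℝ) * (n + 1)
      ≤ ((((n * ((n + 1) ^ r * (n + 1) ^ r) + 1) ^ s : ℕ) : ℝ) * (n.factorial * X ^ (1 - ε))) *
        (n + 1) := mul_le_mul_of_nonneg_right (few_card_le n d r s _ hM0) hn0.le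
    _ ≤ (((n : ℝ) + 1) ^ ((2 * r + 1) * s) * (((n : ℝ) + 1) ^ n * X ^ (1 - ε))) * (n + 1) := by
        gcongr
    _ = ((n : ℝ) + 1) ^ (n + (2 * r + 1) * s + 1) * X ^ (1 - ε) := by
        rw [pow_succ ((n : ℝ) + 1), pow_add]; ring
    _ ≤ X ^ ε * X ^ (1 - ε) := mul_le_mul_of_nonneg_right hkey hM0
    _ = X := by rw [← Real.rpow_add hN]; simp

/-- the uniform bound for the probability of having few twins -/
theorem few_prob_le {n d r : ℕ} {ε : ℝ} (hε : 0 < ε) (hε1 : ε ≤ 1) (hr : 1 ≤ r)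
    (hd : 256 ≤ ε * d) (hdn : d ^ (2 * r) ≤ n) (he : Even (n * d)) :
    regProb n d (fun G => ¬ ManyTwins r d G (((RG n d).card : ℝ) ^ (1 - ε))) ≤
      64 * (2 * r + 1) * Cst r * ((d : ℝ) ^ (2 * r) / n) / ε + 1 / (n + 1) := by
  classical
  have hd00 : (0 : ℝ) ≤ (d : ℝ) := by positivity
  have hd256 : 256 ≤ d := by
    have h : (256 : ℝ) ≤ d := hd.trans (mul_le_of_le_one_left hd00 hε1)
    exact_mod_cast h
  have hd2 : d ^ 2 ≤ n := le_trans (Nat.pow_le_pow_right (by omega) (by omega)) hdn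
  have h256 : 256 * d ≤ n := by
    calc 256 * d ≤ d * d := Nat.mul_le_mul_right _ hd256
      _ = d ^ 2 := by ring
      _ ≤ n := hd2
  have h2 : 8 * (d + 1) ≤ n := by omega
  have h3 : 8 * (2 * r + 1) ≤ n * d := by
    have h4 : 2 * r + 1 ≤ d ^ (2 * r) := by
      have h5 : 2 * r < 2 ^ (2 * r) := Nat.lt_two_pow_self
      have h6 : 2 ^ (2 * r) ≤ d ^ (2 * r) := Nat.pow_le_pow_left (by omega) _
      omega
    calc 8 * (2 * r + 1) ≤ 8 * n := Nat.mul_le_mul_left _ (h4.trans hdn)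
      _ ≤ d * n := Nat.mul_le_mul_right _ (by omega)
      _ = n * d := by ring
  have hNpos : 0 < (RG n d).card := RG_nonempty (by omega) he
  have hN : (0 : ℝ) < (RG n d).card := by exact_mod_cast hNpos
  have hn0 : (0 : ℝ) < n := by
    have : 0 < n := by omega
    exact_mod_cast this
  have hd0 : (0 : ℝ) < d := by
    have : 0 < d := by omega
    exact_mod_cast this
  have hc0 : (0 : ℝ) < 64 * (2 * (r : ℝ) + 1) := by positivity
  set s := ⌊ε * (n * d) / (64 * (2 * (r : ℝ) + 1))⌋₊ with hs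
  have hs1 : 64 * (2 * (r : ℝ) + 1) * s ≤ ε * (n * d) := by
    have h := Nat.floor_le (show 0 ≤ ε * ((n : ℝ) * d) / (64 * (2 * (r : ℝ) + 1)) by positivity)
    rw [← hs, le_div_iff₀ hc0] at h
    linarith
  have hs2 : ε * ((n : ℝ) * d) ≤ 64 * (2 * (r : ℝ) + 1) * (s + 1) := by
    have h := (Nat.lt_floor_add_one (ε * ((n : ℝ) * d) / (64 * (2 * (r : ℝ) + 1)))).le
    rw [← hs, div_le_iff₀ hc0] at h
    linarith
  have hgood := few_small hε hε1 hr hd hdn he hs1
  have hbad := many_bad (n := n) (d := d) (r := r) s (by omega) h2 h3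
  set M : ℝ := ((RG n d).card : ℝ) ^ (1 - ε) with hM
  rw [regProb_eq]
  have hsplit : (((RG n d).filter (fun G => ¬ ManyTwins r d G M)).card : ℝ) ≤
      ((RG n d).filter (fun G => ¬ (Bad r G).card ≤ s)).card + (Few n d r s M).card := by
    have : ((RG n d).filter (fun G => ¬ ManyTwins r d G M)) ⊆
        (RG n d).filter (fun G => ¬ (Bad r G).card ≤ s) ∪ Few n d r s M := by
      intro G hG
      unfold Few
      rw [mem_filter] at hG
      rw [mem_union, mem_filter, mem_filter]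
      by_cases h : (Bad r G).card ≤ s
      · exact Or.inr ⟨hG.1, hG.2, h⟩
      · exact Or.inl ⟨hG.1, h⟩
    exact_mod_cast (card_le_card this).trans (card_union_le _ _)
  refine (div_le_div_of_nonneg_right hsplit hN.le).trans ?_
  rw [add_div]
  apply add_le_add
  · rw [div_le_iff₀ hN]
    set B := (((RG n d).filter (fun G => ¬ (Bad r G).card ≤ s)).card : ℝ) with hB
    have hB0 : 0 ≤ B := by positivity
    have h9 : B * (ε * (n * d)) ≤
        64 * (2 * r + 1) * (Cst r * d ^ (2 * r + 1) * (RG n d).card) := by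
      calc B * (ε * (n * d)) ≤ B * (64 * (2 * r + 1) * (s + 1)) :=
            mul_le_mul_of_nonneg_left hs2 hB0
        _ = 64 * (2 * r + 1) * (B * (s + 1)) := by ring
        _ ≤ _ := mul_le_mul_of_nonneg_left hbad (by positivity)
    have h10 : B * (ε * n) ≤ 64 * (2 * r + 1) * (Cst r * d ^ (2 * r) * (RG n d).card) := by
      have h11 : (B * (ε * n)) * d ≤
          (64 * (2 * r + 1) * (Cst r * d ^ (2 * r) * (RG n d).card)) * d := by
        calc (B * (ε * n)) * d = B * (ε * (n * d)) := by ring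
          _ ≤ _ := h9
          _ = _ := by rw [pow_succ]; ring
      exact le_of_mul_le_mul_right h11 hd0
    calc B = (B * (ε * n)) / (ε * n) := by field_simp
      _ ≤ (64 * (2 * r + 1) * (Cst r * d ^ (2 * r) * (RG n d).card)) / (ε * n) :=
          div_le_div_of_nonneg_right h10 (by positivity)
      _ = _ := by field_simp
  · rw [div_le_div_iff₀ hN (by positivity)]
    linarith

/-- the limit: almost all of the entropy is left by the neighbourhoods -/
theorem many_tendsto {ι : Type} {L : Filter ι} {ε : ℝ} (hε : 0 < ε) (hε1 : ε < 1) (N D R : ι → ℕ)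
    (hN : Tendsto N L atTop) (hev : ∀ᶠ i in L, Even (N i * D i))
    (hD256 : ∀ᶠ i in L, 256 ≤ ε * (D i : ℝ))
    (hR : ∀ᶠ i in L, 1 ≤ R i)
    (hlim : Tendsto (fun i => 64 * (2 * (R i : ℝ) + 1) * Cst (R i) *
      ((D i : ℝ) ^ (2 * R i) / (N i : ℝ))) L (𝓝 0)) :
    Tendsto (fun i => regProb (N i) (D i)
      (fun G => ManyTwins (R i) (D i) G (((RG (N i) (D i)).card : ℝ) ^ (1 - ε)))) L (𝓝 1) := by
  have h1 : Tendsto (fun i => 64 * (2 * (R i : ℝ) + 1) * Cst (R i) *
      ((D i : ℝ) ^ (2 * R i) / (N i : ℝ)) / ε + 1 / ((N i : ℝ) + 1)) L (𝓝 0) := by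
    have h2 : Tendsto (fun i => 1 / ((N i : ℝ) + 1)) L (𝓝 0) :=
      tendsto_one_div_add_atTop_nhds_zero_nat.comp hN
    simpa using (hlim.div_const ε).add h2
  have hle : ∀ᶠ i in L, (D i) ^ (2 * R i) ≤ N i := by
    have h3 := hlim.eventually (gt_mem_nhds (show (0 : ℝ) < 1 by norm_num))
    filter_upwards [h3, hN.eventually (eventually_gt_atTop 0)] with i hi hpos
    have hpos' : (0 : ℝ) < N i := by exact_mod_cast hpos
    have hC : (1 : ℝ) ≤ 64 * (2 * (R i : ℝ) + 1) * Cst (R i) := by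
      have hc : 1 ≤ 64 * (2 * R i + 1) * Cst (R i) := by
        apply Nat.one_le_iff_ne_zero.2
        unfold Cst
        positivity
      exact_mod_cast hc
    have h0 : (0 : ℝ) ≤ (D i : ℝ) ^ (2 * R i) / (N i : ℝ) := by positivity
    have h4 : (D i : ℝ) ^ (2 * R i) / (N i : ℝ) < 1 :=
      lt_of_le_of_lt (le_mul_of_one_le_left h0 hC) hi
    rw [div_lt_one hpos'] at h4
    exact_mod_cast h4.le
  have hfew : Tendsto (fun i => regProb (N i) (D i)
      (fun G => ¬ ManyTwins (R i) (D i) G (((RG (N i) (D i)).card : ℝ) ^ (1 - ε)))) L (𝓝 0) := by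
    apply squeeze_zero' _ _ h1
    · exact Eventually.of_forall fun i => regProb_nonneg _ _ _
    · filter_upwards [hev, hD256, hle, hR] with i h3 h4 h5 h6
      exact few_prob_le hε hε1.le h6 h4 h5 h3
  have h4 := (tendsto_const_nhds (x := (1 : ℝ))).sub hfew
  rw [sub_zero] at h4
  refine h4.congr' ?_
  filter_upwards [hev, hD256, hle, hR] with i h3 h5' h6 h7
  have h5 : 256 ≤ D i := by
    have h0 : (0 : ℝ) ≤ D i := by positivity
    have h : (256 : ℝ) ≤ D i := h5'.trans (mul_le_of_le_one_left h0 hε1.le)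
    exact_mod_cast h
  rw [← regProb_not ?_]
  · simp only [not_not]
  · apply RG_nonempty _ h3
    have hd2 : (D i) ^ 2 ≤ N i := le_trans (Nat.pow_le_pow_right (by omega) (by omega)) h6
    have : 256 * D i ≤ N i := by
      calc 256 * D i ≤ D i * D i := Nat.mul_le_mul_right _ h5
        _ = (D i) ^ 2 := by ring
        _ ≤ N i := hd2
    omega

theorem RG_card_eq (n d : ℕ) :
    (RG n d).card = {G : SimpleGraph (Fin n) | Reg G d}.ncard := by
  classical
  rw [← Set.ncard_coe_finset]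
  congr 1
  ext G
  simp [RG]

/-- monotonicity of the number of twins -/
theorem ManyTwins.mono {r d : ℕ} {G : SimpleGraph (Fin n)} {M M' : ℝ} (h : ManyTwins r d G M)
    (hM : M' ≤ M) : ManyTwins r d G M' := by
  obtain ⟨F, hF, h1, h2⟩ := h
  exact ⟨F, hM.trans hF, h1, h2⟩

/-- probabilities are monotone and at most one -/
theorem regProb_mono {n d : ℕ} {P Q : SimpleGraph (Fin n) → Prop} (h : ∀ G, P G → Q G) :
    regProb n d P ≤ regProb n d Q := by
  classical
  rw [regProb_eq, regProb_eq]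
  refine div_le_div_of_nonneg_right ?_ (by positivity)
  exact_mod_cast card_le_card (monotone_filter_right _ (fun G _ hG => h G hG))

theorem regProb_le_one (n d : ℕ) (P : SimpleGraph (Fin n) → Prop) : regProb n d P ≤ 1 := by
  classical
  rw [regProb_eq]
  refine div_le_one_of_le₀ ?_ (by positivity)
  exact_mod_cast card_le_card (filter_subset _ _)

/-- `|RG|^(9/10) ≥ n^(nd/40)` -/
theorem RG_pow_ge {n d r : ℕ} (hr : 1 ≤ r) (hd : 256 ≤ d) (hdn : d ^ (2 * r) ≤ n)
    (he : Even (n * d)) :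
    (n : ℝ) ^ ((n : ℝ) * d / 40) ≤ ((RG n d).card : ℝ) ^ (1 - (1 / 10 : ℝ)) := by
  have hd2 : d ^ 2 ≤ n := le_trans (Nat.pow_le_pow_right (by omega) (by omega)) hdn
  have h256 : 256 * d ≤ n := by
    calc 256 * d ≤ d * d := Nat.mul_le_mul_right _ hd
      _ = d ^ 2 := by ring
      _ ≤ n := hd2
  have hNpos : 0 < (RG n d).card := RG_nonempty (by omega) he
  have hN : (0 : ℝ) < (RG n d).card := by exact_mod_cast hNpos
  have hbig := RG_big hr hd hdn he
  set k := n * d / 8 with hk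
  set X : ℝ := ((RG n d).card : ℝ) with hX
  have hbig' : ((n : ℝ) + 1) ^ k ≤ X ^ 4 := by rw [hX]; exact_mod_cast hbig
  have hn0 : (0 : ℝ) < (n : ℝ) + 1 := by positivity
  have hn1 : (1 : ℝ) ≤ n := by
    have : 1 ≤ n := by omega
    exact_mod_cast this
  have h := Real.rpow_le_rpow (by positivity) hbig' (show (0 : ℝ) ≤ 9 / 40 by norm_num)
  rw [← Real.rpow_natCast, ← Real.rpow_natCast, ← Real.rpow_mul hn0.le,
    ← Real.rpow_mul hN.le] at h
  have e : ((4 : ℕ) : ℝ) * (9 / 40) = 1 - 1 / 10 := by norm_num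
  rw [e] at h
  refine le_trans ?_ h
  have hnd : 72 ≤ n * d := by
    calc 72 ≤ 1 * 256 := by norm_num
      _ ≤ n * d := Nat.mul_le_mul (by omega) hd
  have hk' : (n : ℝ) * d < 8 * (k + 1) := by
    have : n * d < 8 * (k + 1) := by rw [hk]; omega
    exact_mod_cast this
  have hnd' : (72 : ℝ) ≤ n * d := by exact_mod_cast hnd
  calc (n : ℝ) ^ ((n : ℝ) * d / 40) ≤ ((n : ℝ) + 1) ^ ((n : ℝ) * d / 40) :=
        Real.rpow_le_rpow (by positivity) (by linarith) (by positivity)
    _ ≤ ((n : ℝ) + 1) ^ ((k : ℝ) * (9 / 40)) := by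
        refine Real.rpow_le_rpow_of_exponent_le (by linarith) ?_
        nlinarith

/-- at least `n ^ (n d / 40)` twins -/
theorem many_explicit {ι : Type} {L : Filter ι} (N D R : ι → ℕ)
    (hN : Tendsto N L atTop) (hev : ∀ᶠ i in L, Even (N i * D i)) (hD : ∀ᶠ i in L, 2560 ≤ D i)
    (hR : ∀ᶠ i in L, 1 ≤ R i)
    (hlim : Tendsto (fun i => 64 * (2 * (R i : ℝ) + 1) * Cst (R i) *
      ((D i : ℝ) ^ (2 * R i) / (N i : ℝ))) L (𝓝 0)) :
    Tendsto (fun i => regProb (N i) (D i)
      (fun G => ManyTwins (R i) (D i) G ((N i : ℝ) ^ ((N i : ℝ) * D i / 40)))) L (𝓝 1) := by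
  have hD256 : ∀ᶠ i in L, 256 ≤ (1 / 10 : ℝ) * (D i : ℝ) := by
    filter_upwards [hD] with i hi
    have : (2560 : ℝ) ≤ D i := by exact_mod_cast hi
    linarith
  have h := many_tendsto (ε := 1 / 10) (by norm_num) (by norm_num) N D R hN hev hD256 hR hlim
  have hle : ∀ᶠ i in L, (D i) ^ (2 * R i) ≤ N i := by
    have h3 := hlim.eventually (gt_mem_nhds (show (0 : ℝ) < 1 by norm_num))
    filter_upwards [h3, hN.eventually (eventually_gt_atTop 0)] with i hi hpos
    have hpos' : (0 : ℝ) < N i := by exact_mod_cast hpos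
    have hC : (1 : ℝ) ≤ 64 * (2 * (R i : ℝ) + 1) * Cst (R i) := by
      have hc : 1 ≤ 64 * (2 * R i + 1) * Cst (R i) := by
        apply Nat.one_le_iff_ne_zero.2
        unfold Cst
        positivity
      exact_mod_cast hc
    have h0 : (0 : ℝ) ≤ (D i : ℝ) ^ (2 * R i) / (N i : ℝ) := by positivity
    have h4 : (D i : ℝ) ^ (2 * R i) / (N i : ℝ) < 1 :=
      lt_of_le_of_lt (le_mul_of_one_le_left h0 hC) hi
    rw [div_lt_one hpos'] at h4
    exact_mod_cast h4.le
  refine tendsto_of_tendsto_of_tendsto_of_le_of_le' h tendsto_const_nhds ?_ ?_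
  · filter_upwards [hev, hD, hle, hR] with i h3 h5 h6 h7
    exact regProb_mono fun G hG => hG.mono (RG_pow_ge h7 (by omega) h6 h3)
  · exact Eventually.of_forall fun i => regProb_le_one _ _ _

end Pool.Agent.Y850.SH
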