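import Pool.Agent.Y850.SH.Ent

set_option autoImplicit false

/-! Random regular graphs and neighbourhoods of growing radius. -/

namespace Pool.Agent.Y850.SH

open Finset Filter Topology
open Pool.Agent.H336R3.Shot

theorem cst_bound {r : ℕ} (hr : 1 ≤ r) :
    64 * (2 * (r : ℝ) + 1) * (Cst r : ℝ) ≤ 13824 * (r : ℝ) ^ 4 * (6 * (r : ℝ)) ^ (2 * r) := by
  have hr' : (1 : ℝ) ≤ r := by exact_mod_cast hr
  have h1 : 2 * (r : ℝ) + 1 ≤ 3 * r := by linarith
  have h2 : 2 * (r : ℝ) + 2 ≤ 4 * r := by linarith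
  unfold Cst
  push_cast
  calc 64 * (2 * (r : ℝ) + 1) * ((2 * (r : ℝ) + 2) * (2 * (r : ℝ) + 1) ^ (2 * r + 2) *
        2 ^ (2 * r + 1))
      ≤ 64 * (3 * (r : ℝ)) * ((4 * (r : ℝ)) * (3 * (r : ℝ)) ^ (2 * r + 2) * 2 ^ (2 * r + 1)) := by
        gcongr
    _ = 13824 * (r : ℝ) ^ 4 * ((3 * (r : ℝ)) ^ (2 * r) * 2 ^ (2 * r)) := by
        rw [pow_add (3 * (r : ℝ)), pow_succ (2 : ℝ)]
        ring
    _ = 13824 * (r : ℝ) ^ 4 * (6 * (r : ℝ)) ^ (2 * r) := by
        rw [← mul_pow]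
        congr 2
        ring

/-- the bound for the probability of being reconstructable, uniformly in the radius -/
theorem rec_le {n d r : ℕ} (hr : 1 ≤ r) (hd : 256 ≤ d) (hdn : d ^ (2 * r) ≤ n)
    (he : Even (n * d)) :
    regProb n d (fun G => Reconstructable r G) ≤
      13824 * ((r : ℝ) ^ 4 * (6 * r * d) ^ (2 * r) / n) + 1 / (n + 1) := by
  refine (rec_prob_le hr hd hdn he).trans ?_
  refine add_le_add ?_ le_rfl
  have h1 : (0 : ℝ) ≤ (d : ℝ) ^ (2 * r) / n := by positivity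
  refine (mul_le_mul_of_nonneg_right (cst_bound hr) h1).trans (le_of_eq ?_)
  rw [mul_pow (6 * (r : ℝ))]
  ring

/-- the constants of the bound for growing radii -/
theorem cst_lim {ι : Type} {L : Filter ι} (N D R : ι → ℕ) (hR : ∀ᶠ i in L, 1 ≤ R i)
    (hlim : Tendsto (fun i => (R i : ℝ) ^ 4 * (6 * (R i : ℝ) * (D i : ℝ)) ^ (2 * R i) / (N i : ℝ)) L
      (𝓝 0)) :
    Tendsto (fun i => 64 * (2 * (R i : ℝ) + 1) * Cst (R i) *
      ((D i : ℝ) ^ (2 * R i) / (N i : ℝ))) L (𝓝 0) := by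
  have h := hlim.const_mul 13824
  rw [mul_zero] at h
  refine squeeze_zero' (Eventually.of_forall fun i => by positivity) ?_ h
  filter_upwards [hR] with i hr
  have h1 : (0 : ℝ) ≤ (D i : ℝ) ^ (2 * R i) / N i := by positivity
  refine (mul_le_mul_of_nonneg_right (cst_bound hr) h1).trans (le_of_eq ?_)
  rw [mul_pow (6 * (R i : ℝ))]
  ring

/-- the uniform finite bound for the probability of having few twins -/
theorem few_le {n d r : ℕ} {ε : ℝ} (hε : 0 < ε) (hε1 : ε ≤ 1) (hr : 1 ≤ r)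
    (hd : 256 ≤ ε * d) (hdn : d ^ (2 * r) ≤ n) (he : Even (n * d)) :
    regProb n d (fun G => ¬ ManyTwins r d G (((RG n d).card : ℝ) ^ (1 - ε))) ≤
      13824 * ((r : ℝ) ^ 4 * (6 * r * d) ^ (2 * r) / n) / ε + 1 / (n + 1) := by
  refine (few_prob_le hε hε1 hr hd hdn he).trans ?_
  refine add_le_add ?_ le_rfl
  refine div_le_div_of_nonneg_right ?_ hε.le
  have h1 : (0 : ℝ) ≤ (d : ℝ) ^ (2 * r) / n := by positivity
  refine (mul_le_mul_of_nonneg_right (cst_bound hr) h1).trans (le_of_eq ?_)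
  rw [mul_pow (6 * (r : ℝ))]
  ring

/-- growing radii, general form -/
theorem not_rec_grow {ι : Type} {L : Filter ι} (N D R : ι → ℕ)
    (hN : Tendsto N L atTop) (hev : ∀ᶠ i in L, Even (N i * D i)) (hD : ∀ᶠ i in L, 256 ≤ D i)
    (hR : ∀ᶠ i in L, 1 ≤ R i)
    (hlim : Tendsto (fun i => (R i : ℝ) ^ 4 * (6 * (R i : ℝ) * (D i : ℝ)) ^ (2 * R i) / (N i : ℝ)) L
      (𝓝 0)) :
    Tendsto (fun i => regProb (N i) (D i) (fun G => ¬ Reconstructable (R i) G)) L (𝓝 1) := by
  have h1 : Tendsto (fun i => 13824 * ((R i : ℝ) ^ 4 * (6 * (R i : ℝ) * (D i : ℝ)) ^ (2 * R i) /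
      (N i : ℝ)) + 1 / ((N i : ℝ) + 1)) L (𝓝 0) := by
    have h2 : Tendsto (fun i => 1 / ((N i : ℝ) + 1)) L (𝓝 0) :=
      tendsto_one_div_add_atTop_nhds_zero_nat.comp hN
    simpa using (hlim.const_mul 13824).add h2
  have hle : ∀ᶠ i in L, (D i) ^ (2 * R i) ≤ N i := by
    have h3 := hlim.eventually (gt_mem_nhds (show (0 : ℝ) < 1 by norm_num))
    filter_upwards [h3, hN.eventually (eventually_gt_atTop 0), hR] with i hi hpos hr
    have hpos' : (0 : ℝ) < N i := by exact_mod_cast hpos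
    have hr' : (1 : ℝ) ≤ R i := by exact_mod_cast hr
    rw [div_lt_one hpos'] at hi
    have h4 : (D i : ℝ) ^ (2 * R i) ≤ (R i : ℝ) ^ 4 * (6 * (R i : ℝ) * (D i : ℝ)) ^ (2 * R i) := by
      have h5 : (1 : ℝ) ≤ (R i : ℝ) ^ 4 := one_le_pow₀ hr'
      have h6 : (D i : ℝ) ≤ 6 * (R i : ℝ) * (D i : ℝ) := by
        have h7 : (1 : ℝ) ≤ 6 * (R i : ℝ) := by linarith
        have h8 : (0 : ℝ) ≤ (D i : ℝ) := by positivity
        nlinarith
      calc (D i : ℝ) ^ (2 * R i) ≤ (6 * (R i : ℝ) * (D i : ℝ)) ^ (2 * R i) := by gcongr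
        _ ≤ (R i : ℝ) ^ 4 * (6 * (R i : ℝ) * (D i : ℝ)) ^ (2 * R i) :=
          le_mul_of_one_le_left (by positivity) h5
    exact_mod_cast h4.trans hi.le
  have hrec : Tendsto (fun i => regProb (N i) (D i) (fun G => Reconstructable (R i) G)) L (𝓝 0) := by
    apply squeeze_zero' _ _ h1
    · exact Eventually.of_forall fun i => regProb_nonneg _ _ _
    · filter_upwards [hev, hD, hle, hR] with i h3 h4 h5 h6
      exact rec_le h6 h4 h5 h3
  have h4 : Tendsto (fun i => 1 - regProb (N i) (D i) (fun G => Reconstructable (R i) G)) L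
      (𝓝 (1 - 0)) := tendsto_const_nhds.sub hrec
  rw [sub_zero] at h4
  refine h4.congr' ?_
  filter_upwards [hev, hD, hle, hR] with i h3 h5 h6 h7
  refine (regProb_not ?_ _).symm
  apply RG_nonempty _ h3
  have hd2 : (D i) ^ 2 ≤ N i := le_trans (Nat.pow_le_pow_right (by omega) (by omega)) h6
  have : 256 * D i ≤ N i := by
    calc 256 * D i ≤ D i * D i := Nat.mul_le_mul_right _ h5
      _ = (D i) ^ 2 := by ring
      _ ≤ N i := hd2
  omega

/-- degrees above a power of `log n` tend to infinity -/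
theorem log_D {ι : Type} {L : Filter ι} {δ : ℝ} (hδ : 0 < δ)
    (N D : ι → ℕ) (hN : Tendsto N L atTop)
    (hD : ∀ᶠ i in L, (6 * Real.log (N i)) ^ (2 / δ) ≤ (D i : ℝ)) : Tendsto D L atTop := by
  have hNr : Tendsto (fun i => (N i : ℝ)) L atTop := tendsto_natCast_atTop_atTop.comp hN
  have hlog : Tendsto (fun i => Real.log (N i : ℝ)) L atTop := Real.tendsto_log_atTop.comp hNr
  have hpow : Tendsto (fun i => (6 * Real.log (N i)) ^ (2 / δ)) L atTop := by
    refine (tendsto_rpow_atTop (by positivity)).comp ?_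
    exact hlog.const_mul_atTop (by norm_num)
  have h : Tendsto (fun i => (D i : ℝ)) L atTop := tendsto_atTop_mono' L hD hpow
  exact tendsto_natCast_atTop_iff.1 h

/-- radii up to `(1/2 - δ) log n / log d` for degrees above a power of `log n` -/
theorem log_lim {ι : Type} {L : Filter ι} {δ : ℝ} (hδ : 0 < δ) (hδ' : δ < 1 / 2)
    (N D R : ι → ℕ) (hN : Tendsto N L atTop)
    (hR : ∀ᶠ i in L, 1 ≤ R i)
    (hD : ∀ᶠ i in L, (6 * Real.log (N i)) ^ (2 / δ) ≤ (D i : ℝ))
    (hRD : ∀ᶠ i in L, (R i : ℝ) * Real.log (D i) ≤ (1 / 2 - δ) * Real.log (N i)) :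
    Tendsto (fun i => (R i : ℝ) ^ 4 * (6 * (R i : ℝ) * (D i : ℝ)) ^ (2 * R i) / (N i : ℝ)) L
      (𝓝 0) := by
  have hNr : Tendsto (fun i => (N i : ℝ)) L atTop := tendsto_natCast_atTop_atTop.comp hN
  have hlog : Tendsto (fun i => Real.log (N i : ℝ)) L atTop := Real.tendsto_log_atTop.comp hNr
  have hpow : Tendsto (fun i => (6 * Real.log (N i)) ^ (2 / δ)) L atTop := by
    refine (tendsto_rpow_atTop (by positivity)).comp ?_
    exact hlog.const_mul_atTop (by norm_num)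
  have hD256 : ∀ᶠ i in L, 256 ≤ D i := by
    filter_upwards [hD, hpow.eventually_ge_atTop 256] with i h1 h2
    exact_mod_cast h2.trans h1
  -- the squeeze
  have hlim : Tendsto (fun i => Real.log (N i : ℝ) ^ (4 : ℝ) / (N i : ℝ) ^ δ) L (𝓝 0) :=
    ((isLittleO_log_rpow_rpow_atTop (4 : ℝ) hδ).tendsto_div_nhds_zero).comp hNr
  refine squeeze_zero' (Eventually.of_forall fun i => by positivity) ?_ hlim
  filter_upwards [hD, hRD, hD256, hR, hNr.eventually_gt_atTop 1, hlog.eventually_ge_atTop 1]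
    with i h1 h2 h3 h4 h5 h6
  set n : ℝ := (N i : ℝ) with hn
  set d : ℝ := (D i : ℝ) with hd
  set r : ℝ := (R i : ℝ) with hr
  have hn0 : 0 < n := by linarith
  have hd256 : (256 : ℝ) ≤ d := by rw [hd]; exact_mod_cast h3
  have hd0 : 0 < d := by linarith
  have hr1 : (1 : ℝ) ≤ r := by rw [hr]; exact_mod_cast h4
  have hr0 : 0 < r := by linarith
  have hld1 : 1 ≤ Real.log d := by
    rw [← Real.log_exp 1]
    refine Real.log_le_log (Real.exp_pos _) ?_
    have := Real.exp_one_lt_d9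
    linarith
  -- `r ≤ log n`
  have hrn : r ≤ Real.log n := by
    have e1 : r ≤ r * Real.log d := le_mul_of_one_le_right hr0.le hld1
    have e2 : (1 / 2 - δ) * Real.log n ≤ Real.log n := by
      have : (1 / 2 - δ) ≤ 1 := by linarith
      have h0 : 0 ≤ Real.log n := by linarith
      nlinarith
    linarith
  -- `log (6 r) ≤ (δ / 2) log d`
  have hl6 : Real.log (6 * r) ≤ δ / 2 * Real.log d := by
    have e1 : Real.log ((6 * Real.log n) ^ (2 / δ)) ≤ Real.log d :=
      Real.log_le_log (by positivity) h1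
    rw [Real.log_rpow (by positivity)] at e1
    have e2 : Real.log (6 * r) ≤ Real.log (6 * Real.log n) :=
      Real.log_le_log (by positivity) (by linarith)
    have e3 : δ / 2 * (2 / δ * Real.log (6 * Real.log n)) = Real.log (6 * Real.log n) := by
      field_simp
    have e4 := mul_le_mul_of_nonneg_left e1 (show 0 ≤ δ / 2 by positivity)
    rw [e3] at e4
    linarith
  have hkey : (6 * r * d) ^ (2 * R i) ≤ n ^ (1 - δ) := by
    rw [← Real.log_le_log_iff (by positivity) (by positivity), Real.log_pow,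
      Real.log_rpow hn0, Real.log_mul (by positivity) (by positivity)]
    push_cast
    rw [← hr]
    have e1 : 2 * r * (Real.log (6 * r) + Real.log d) ≤ 2 * r * ((1 + δ / 2) * Real.log d) := by
      refine mul_le_mul_of_nonneg_left ?_ (by positivity)
      linarith
    have e2 : 2 * r * ((1 + δ / 2) * Real.log d) = 2 * (1 + δ / 2) * (r * Real.log d) := by ring
    have e3 : 2 * (1 + δ / 2) * (r * Real.log d) ≤
        2 * (1 + δ / 2) * ((1 / 2 - δ) * Real.log n) :=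
      mul_le_mul_of_nonneg_left h2 (by positivity)
    have e4 : 2 * (1 + δ / 2) * ((1 / 2 - δ) * Real.log n) ≤ (1 - δ) * Real.log n := by
      have h0 : 0 ≤ Real.log n := by linarith
      have : 2 * (1 + δ / 2) * (1 / 2 - δ) ≤ 1 - δ := by nlinarith
      nlinarith
    linarith
  have h4' : r ^ 4 ≤ Real.log n ^ (4 : ℝ) := by
    rw [show (4 : ℝ) = ((4 : ℕ) : ℝ) by norm_num, Real.rpow_natCast]
    exact pow_le_pow_left₀ hr0.le hrn 4
  calc r ^ 4 * (6 * r * d) ^ (2 * R i) / n ≤ Real.log n ^ (4 : ℝ) * n ^ (1 - δ) / n := by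
        gcongr
    _ = Real.log n ^ (4 : ℝ) / n ^ δ := by
        rw [Real.rpow_sub hn0, Real.rpow_one]
        field_simp

end Pool.Agent.Y850.SH
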